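import Mathlib

set_option autoImplicit false
set_option warn.classDefReducibility false
open MeasureTheory ProbabilityTheory Filter Topology Set
open scoped ENNReal

namespace Pool.Agent.Results.MP_c7dc48_pr.AlphaMixingNoTransfer

section Defs
variable {X : Type} [MeasurableSpace X]

/-- The empirical mean `(1/m) ∑_{i<m} f (x i)`. -/
noncomputable def empMean (f : X → ℝ) (m : ℕ) (x : ℕ → X) : ℝ :=
  (1 / (m : ℝ)) * ∑ i ∈ Finset.range m, f (x i)

/-- `q(m, ε, Q)`: the outer `Q`-measure of the event that some `f` in the class has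
`|empirical mean - P0-mean| > ε`. -/
noncomputable def q (𝓕 : Set (X → ℝ)) (P0 : Measure X) (m : ℕ) (ε : ℝ) (Q : Measure (ℕ → X)) :
    ℝ≥0∞ :=
  Q {x | ∃ f ∈ 𝓕, ε < |empMean f m x - ∫ y, f y ∂P0|}

/-- Uniform convergence of empirical means under `Q`. -/
def UCEM (𝓕 : Set (X → ℝ)) (P0 : Measure X) (Q : Measure (ℕ → X)) : Prop :=
  ∀ ε : ℝ, 0 < ε → Tendsto (fun m => q 𝓕 P0 m ε Q) atTop (𝓝 0)

/-- The σ-algebra generated by the coordinates `x 0, …, x j`. -/
def past (X : Type) [MeasurableSpace X] (j : ℕ) : MeasurableSpace (ℕ → X) :=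
  ⨆ (i : ℕ) (_ : i ≤ j), MeasurableSpace.comap (fun x : ℕ → X => x i) inferInstance

/-- The σ-algebra generated by the coordinates `x j, x (j+1), …`. -/
def future (X : Type) [MeasurableSpace X] (j : ℕ) : MeasurableSpace (ℕ → X) :=
  ⨆ (i : ℕ) (_ : j ≤ i), MeasurableSpace.comap (fun x : ℕ → X => x i) inferInstance

/-- The strong mixing coefficient `α(k)` of a law `P` on sequences. -/
noncomputable def alpha (P : Measure (ℕ → X)) (k : ℕ) : ℝ≥0∞ :=
  ⨆ (j : ℕ) (A : Set (ℕ → X)) (B : Set (ℕ → X)) (_ : MeasurableSet[past X j] A)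
    (_ : MeasurableSet[future X (j + k)] B),
      ENNReal.ofReal |P.real (A ∩ B) - P.real A * P.real B|

/-- Stationarity: invariance under the shift. -/
def Stationary (P : Measure (ℕ → X)) : Prop :=
  P.map (fun x i => x (i + 1)) = P

/-- The one-dimensional marginal. -/
noncomputable def marginal (P : Measure (ℕ → X)) : Measure X := P.map (fun x => x 0)

instance (P : Measure (ℕ → X)) [IsProbabilityMeasure P] : IsProbabilityMeasure (marginal P) :=
  Measure.isProbabilityMeasure_map (measurable_pi_apply 0).aemeasurable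

end Defs

/-- a fair coin -/
noncomputable def coin : Measure Bool := (2:ℝ≥0∞)⁻¹ • (Measure.dirac true + Measure.dirac false)

lemma coin_singleton (b : Bool) : coin {b} = 2⁻¹ := by
  cases b <;> simp [coin]

instance : IsProbabilityMeasure coin := ⟨by
  simp only [coin, Measure.smul_apply, Measure.add_apply, measure_univ, smul_eq_mul]
  rw [one_add_one_eq_two, ENNReal.inv_mul_cancel (by norm_num) (by norm_num)]⟩

/-- index set of the coins: (starting time, lag - 1, copy, number of the coin) -/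
abbrev Idx : Type := ℤ × ℕ × ℕ × ℕ

/-- the law of the coins -/
noncomputable def PP : Measure (Idx → Bool) := Measure.infinitePi (fun _ => coin)

instance : IsProbabilityMeasure PP := by unfold PP; infer_instance

lemma PP_map_inj (f : Idx → Idx) (hf : Function.Injective f) :
    PP.map (fun ω i => ω (f i)) = PP := by
  unfold PP
  exact Measure.map_infinitePi_infinitePi_of_inj (P := fun _ : Idx => coin) hf

/-- the state space -/
abbrev St : Type := (ℕ × ℕ → Bool) × (ℕ × ℕ → Bool)

/-- the process; `w l` is the number of coins of a unit with lag `l + 1` -/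
def proc (w : ℕ → ℕ) (t : ℤ) (ω : Idx → Bool) : St :=
  (fun p => ω (t, p.1, p.2, 0), fun p => decide (∀ i < w p.1, ω (t - p.1 - 1, p.1, p.2, i) = false))

lemma measurable_proc (w : ℕ → ℕ) (t : ℤ) : Measurable (proc w t) := by
  refine Measurable.prodMk ?_ ?_
  · exact measurable_pi_lambda _ fun p => measurable_pi_apply _
  · refine measurable_pi_lambda _ fun p => ?_
    refine measurable_to_bool ?_
    have : (fun ω : Idx → Bool => decide (∀ i < w p.1, ω (t - p.1 - 1, p.1, p.2, i) = false)) ⁻¹' {true}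
        = ⋂ i : Fin (w p.1), {ω | ω (t - p.1 - 1, p.1, p.2, (i:ℕ)) = false} := by
      ext ω
      simp only [mem_preimage, mem_singleton_iff, decide_eq_true_eq, mem_iInter, mem_ofPred_eq]
      exact ⟨fun h i => h i i.2, fun h i hi => h ⟨i, hi⟩⟩
    rw [this]
    refine MeasurableSet.iInter fun i => ?_
    exact measurableSet_eq_fun (measurable_pi_apply _) measurable_const

/-- path map -/
def path (w : ℕ → ℕ) (ω : Idx → Bool) : ℕ → St := fun t => proc w t ω

lemma measurable_path (w : ℕ → ℕ) : Measurable (path w) :=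
  measurable_pi_lambda _ fun t => measurable_proc w t

/-- law of the process -/
noncomputable def Law (w : ℕ → ℕ) : Measure (ℕ → St) := PP.map (path w)

instance (w : ℕ → ℕ) : IsProbabilityMeasure (Law w) :=
  Measure.isProbabilityMeasure_map (measurable_path w).aemeasurable

lemma proc_shift (w : ℕ → ℕ) (t : ℤ) (ω : Idx → Bool) :
    proc w t (fun i => ω (i.1 + 1, i.2)) = proc w (t + 1) ω := by
  simp only [proc]
  have : ∀ l : ℕ, t - (l:ℤ) - 1 + 1 = t + 1 - (l:ℤ) - 1 := fun l => by ring
  simp only [this]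

lemma stationary_Law (w : ℕ → ℕ) : Stationary (Law w) := by
  unfold Stationary Law
  have hshift : Measurable (fun (x : ℕ → St) (i : ℕ) => x (i + 1)) :=
    measurable_pi_lambda _ fun i => measurable_pi_apply _
  rw [Measure.map_map hshift (measurable_path w)]
  have hinj : Function.Injective (fun i : Idx => ((i.1 + 1, i.2) : Idx)) := by
    rintro ⟨a, b⟩ ⟨c, d⟩ h
    simp only [Prod.mk.injEq, add_left_inj] at h
    exact Prod.ext h.1 h.2
  have h1 := PP_map_inj _ hinj
  conv_rhs => rw [← h1]
  have hm : Measurable (fun (ω : Idx → Bool) (i : Idx) => ω (i.1 + 1, i.2)) :=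
    measurable_pi_lambda _ fun i => measurable_pi_apply _
  rw [Measure.map_map (measurable_path w) hm]
  congr 1
  ext1 ω
  simp only [Function.comp, path]
  ext1 t
  show proc w ((t + 1 : ℕ) : ℤ) ω = proc w (t:ℤ) (fun i => ω (i.1 + 1, i.2))
  rw [proc_shift]
  push_cast
  rfl

lemma cov_indicator {Ω : Type*} [MeasurableSpace Ω] (P : Measure Ω) [IsProbabilityMeasure P]
    {A B : Set Ω} (hA : MeasurableSet A) (hB : MeasurableSet B) :
    cov[A.indicator (fun _ => (1:ℝ)), B.indicator (fun _ => (1:ℝ)); P] =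
      P.real (A ∩ B) - P.real A * P.real B := by
  have hAm : MemLp (A.indicator (fun _ => (1:ℝ))) 2 P := (memLp_const (1:ℝ)).indicator hA
  have hBm : MemLp (B.indicator (fun _ => (1:ℝ))) 2 P := (memLp_const (1:ℝ)).indicator hB
  rw [covariance_eq_sub hAm hBm]
  have h1 : A.indicator (fun _ => (1:ℝ)) * B.indicator (fun _ => (1:ℝ)) =
      (A ∩ B).indicator (fun _ => (1:ℝ)) := by
    ext ω
    simp only [Pi.mul_apply, indicator, mem_inter_iff]
    by_cases h1 : ω ∈ A <;> by_cases h2 : ω ∈ B <;> simp [h1, h2]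
  rw [h1, integral_indicator_const _ (hA.inter hB), integral_indicator_const _ hA,
    integral_indicator_const _ hB]
  simp

/-- abstract mixing bound -/
lemma abs_cov_le {Ω : Type*} [MeasurableSpace Ω] (P : Measure Ω) [IsProbabilityMeasure P]
    (K : ℕ) (hK : 0 < K) (A : Fin K → Set Ω) (S : Set Ω) (hA : ∀ i, MeasurableSet (A i))
    (hS : MeasurableSet S)
    (hind : ∀ i j, i ≠ j → P.real (A i ∩ A j) = P.real (A i) * P.real (A j)) (p c : ℝ)
    (hp : ∀ i, P.real (A i) = p) (hc : ∀ i, P.real (A i ∩ S) = c) :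
    |c - p * P.real S| ≤ 1 / (2 * √K) := by
  set Y : Fin K → Ω → ℝ := fun i => (A i).indicator (fun _ => (1:ℝ)) with hY
  set T : Ω → ℝ := S.indicator (fun _ => (1:ℝ)) with hT
  have hYm : ∀ i, MemLp (Y i) 2 P := fun i => (memLp_const (1:ℝ)).indicator (hA i)
  have hTm : MemLp T 2 P := (memLp_const (1:ℝ)).indicator hS
  have hYb : ∀ i, ∀ᵐ ω ∂P, Y i ω ∈ Icc (0:ℝ) 1 := fun i => Eventually.of_forall fun ω => by
    simp only [hY, indicator]; split_ifs <;> simp
  have hTb : ∀ᵐ ω ∂P, T ω ∈ Icc (0:ℝ) 1 := Eventually.of_forall fun ω => by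
    simp only [hT, indicator]; split_ifs <;> simp
  have hvar : ∀ i, Var[Y i; P] ≤ 1/4 := fun i => by
    have := variance_le_sq_of_bounded (hYb i) (hYm i).aestronglyMeasurable.aemeasurable
    norm_num at this ⊢; linarith
  have hvarT : Var[T; P] ≤ 1/4 := by
    have := variance_le_sq_of_bounded hTb hTm.aestronglyMeasurable.aemeasurable
    norm_num at this ⊢; linarith
  have hsum : Var[∑ i, Y i; P] ≤ K / 4 := by
    rw [variance_sum hYm]
    have : ∀ i, ∑ j, cov[Y i, Y j; P] = Var[Y i; P] := by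
      intro i
      rw [Finset.sum_eq_single i]
      · exact covariance_self (hYm i).aestronglyMeasurable.aemeasurable
      · intro j _ hj
        rw [hY, cov_indicator P (hA i) (hA j), hind i j hj.symm, sub_self]
      · simp
    simp_rw [this]
    calc ∑ i, Var[Y i; P] ≤ ∑ i : Fin K, (1/4 : ℝ) := Finset.sum_le_sum fun i _ => hvar i
        _ = K / 4 := by simp; ring
  have hcov : ∀ i, cov[Y i, T; P] = c - p * P.real S := fun i => by
    rw [hY, hT, cov_indicator P (hA i) hS, hp, hc]
  have hcovsum : cov[∑ i, Y i, T; P] = K * (c - p * P.real S) := by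
    rw [covariance_sum_left (fun i => hYm i) hTm]
    simp [hcov, mul_sub]
  set l : ℝ := K * (c - p * P.real S) with hl
  have hsm : MemLp (∑ i, Y i) 2 P := memLp_finsetSum' _ (fun i _ => hYm i)
  have hnn : 0 ≤ Var[∑ i, Y i - (4 * l) • T; P] := variance_nonneg _ _
  rw [← covariance_self (hsm.sub (hTm.const_smul _)).aestronglyMeasurable.aemeasurable,
    covariance_sub_sub hsm (hTm.const_smul _) hsm (hTm.const_smul _)] at hnn
  rw [covariance_smul_left, covariance_smul_right, covariance_smul_right, covariance_smul_left,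
    covariance_self hsm.aestronglyMeasurable.aemeasurable,
    covariance_self hTm.aestronglyMeasurable.aemeasurable, covariance_comm T, hcovsum] at hnn
  have hl2 : l ^ 2 ≤ K / 4 := by
    nlinarith [hsum, hvarT, sq_nonneg l, mul_le_mul_of_nonneg_left hvarT (sq_nonneg l)]
  have hKr : (0:ℝ) < K := by exact_mod_cast hK
  have h1 : |l| ≤ √(K / 4) := Real.abs_le_sqrt hl2
  have h2 : √((K:ℝ) / 4) = √K / 2 := by
    rw [Real.sqrt_div hKr.le, show (4:ℝ) = 2 ^ 2 by norm_num, Real.sqrt_sq (by norm_num)]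
  rw [h2, hl, abs_mul, abs_of_pos hKr] at h1
  rw [le_div_iff₀ (by positivity)]
  have h3 : √(K:ℝ) * √K = K := Real.mul_self_sqrt hKr.le
  have h4 : 0 < √(K:ℝ) := Real.sqrt_pos.2 hKr
  have h5 : √(K:ℝ) * (√K * |c - p * P.real S|) ≤ √K * (1/2) := by
    rw [← mul_assoc, h3]; linarith
  have h6 := le_of_mul_le_mul_left h5 h4
  linarith

/-- reindexing of the coins used for the `a`-th copy of a past event -/
def theta (w : ℕ → ℕ) (j k a : ℕ) (s : Idx) : Idx :=
  if s.1 ≤ j then
    if s.1 + s.2.1 + 1 < j + k then (s.1, s.2.1, s.2.2.1, s.2.2.2 + a * w s.2.1)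
    else (s.1, s.2.1, s.2.2.1, Equiv.swap 0 a s.2.2.2)
  else s

lemma theta_injective (w : ℕ → ℕ) (j k a : ℕ) : Function.Injective (theta w j k a) := by
  rintro ⟨t, l, n, i⟩ ⟨t', l', n', i'⟩ h
  simp only [theta] at h
  split_ifs at h with h1 h2 h3 h4 h5 h6 h7 h8
  all_goals simp only [Prod.mk.injEq, EmbeddingLike.apply_eq_iff_eq] at h ⊢
  all_goals try (obtain ⟨rfl, rfl, rfl, h⟩ := h)
  all_goals try (exact ⟨rfl, rfl, rfl, by omega⟩)

/-- coins visible to the past -/
def vis (w : ℕ → ℕ) (j k : ℕ) : Set Idx :=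
  {s | s.1 ≤ j ∧ ((s.1 + s.2.1 + 1 < j + k ∧ s.2.2.2 < w s.2.1) ∨
    (j + k ≤ s.1 + s.2.1 + 1 ∧ s.2.2.2 = 0))}

/-- σ-algebra of a set of coins -/
def cyl (V : Set Idx) : MeasurableSpace (Idx → Bool) :=
  ⨆ s ∈ V, MeasurableSpace.comap (fun ω : Idx → Bool => ω s) inferInstance

lemma measurable_coord {V : Set Idx} {s : Idx} (hs : s ∈ V) :
    Measurable[cyl V] (fun ω : Idx → Bool => ω s) := by
  have h : MeasurableSpace.comap (fun ω : Idx → Bool => ω s) inferInstance ≤ cyl V :=
    le_iSup₂_of_le s hs le_rfl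
  exact measurable_iff_comap_le.2 h

lemma disjoint_theta (w : ℕ → ℕ) (j k a b : ℕ) (hab : a ≠ b) :
    Disjoint (theta w j k a '' vis w j k) (theta w j k b '' vis w j k) := by
  rw [Set.disjoint_left]
  rintro _ ⟨⟨t, l, n, i⟩, ⟨h1, h2⟩, rfl⟩ ⟨⟨t', l', n', i'⟩, ⟨h1', h2'⟩, h⟩
  simp only at h1 h2 h1' h2'
  simp only [theta, h1, h1', if_true] at h
  rcases h2 with ⟨h2, h3⟩ | ⟨h2, rfl⟩ <;> rcases h2' with ⟨h2', h3'⟩ | ⟨h2', rfl⟩
  · rw [if_pos h2, if_pos h2'] at h
    simp only [Prod.mk.injEq] at h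
    obtain ⟨rfl, rfl, rfl, h⟩ := h
    rcases lt_or_gt_of_ne hab with hlt | hlt
    · have : (a + 1) * w l' ≤ b * w l' := Nat.mul_le_mul_right _ hlt
      rw [add_mul] at this
      omega
    · have : (b + 1) * w l' ≤ a * w l' := Nat.mul_le_mul_right _ hlt
      rw [add_mul] at this
      omega
  · rw [if_pos h2, if_neg (not_lt.2 h2')] at h
    simp only [Prod.mk.injEq] at h
    omega
  · rw [if_neg (not_lt.2 h2), if_pos h2'] at h
    simp only [Prod.mk.injEq] at h
    omega
  · rw [if_neg (not_lt.2 h2), if_neg (not_lt.2 h2')] at h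
    simp only [Prod.mk.injEq, Equiv.swap_apply_left] at h
    exact hab h.2.2.2.symm

lemma measurable_past_theta (w : ℕ → ℕ) (hw : ∀ l, 0 < w l) (j k a : ℕ) (hk : 0 < k)
    {A : Set (ℕ → St)} (hA : MeasurableSet[past St j] A) :
    MeasurableSet[cyl (theta w j k a '' vis w j k)]
      ((fun ω : Idx → Bool => path w (fun i => ω (theta w j k a i))) ⁻¹' A) := by
  have key : MeasurableSpace.comap (fun ω : Idx → Bool => path w (fun i => ω (theta w j k a i)))
      (past St j) ≤ cyl (theta w j k a '' vis w j k) := by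
    unfold past
    simp only [MeasurableSpace.comap_iSup, MeasurableSpace.comap_comp]
    refine iSup₂_le fun i hi => ?_
    rw [← measurable_iff_comap_le]
    show Measurable[cyl _] (fun ω : Idx → Bool => proc w (i:ℤ) (fun s => ω (theta w j k a s)))
    have hco : ∀ s ∈ vis w j k, Measurable[cyl (theta w j k a '' vis w j k)]
        (fun ω : Idx → Bool => ω (theta w j k a s)) :=
      fun s hs => measurable_coord (mem_image_of_mem _ hs)
    have hm1 : Measurable[cyl (theta w j k a '' vis w j k)] (fun (ω : Idx → Bool) (p : ℕ × ℕ) =>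
        ω (theta w j k a ((i:ℤ), p.1, p.2, 0))) := by
      refine @measurable_pi_lambda _ _ _ (cyl (theta w j k a '' vis w j k)) _ _ fun p => ?_
      apply hco
      refine ⟨by simpa using hi, ?_⟩
      by_cases h : (i:ℤ) + p.1 + 1 < j + k
      · left; exact ⟨h, hw _⟩
      · right; exact ⟨not_lt.1 h, rfl⟩
    have hm2 : Measurable[cyl (theta w j k a '' vis w j k)] (fun (ω : Idx → Bool) (p : ℕ × ℕ) =>
        decide (∀ i' < w p.1, ω (theta w j k a ((i:ℤ) - p.1 - 1, p.1, p.2, i')) = false)) := by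
      refine @measurable_pi_lambda _ _ _ (cyl (theta w j k a '' vis w j k)) _ _ fun p => ?_
      refine @measurable_to_bool _ (cyl (theta w j k a '' vis w j k)) _ ?_
      have : (fun ω : Idx → Bool => decide (∀ i' < w p.1,
          ω (theta w j k a ((i:ℤ) - p.1 - 1, p.1, p.2, i')) = false)) ⁻¹' {true}
          = ⋂ i' : Fin (w p.1), {ω | ω (theta w j k a ((i:ℤ) - p.1 - 1, p.1, p.2, (i':ℕ))) = false} := by
        ext ω
        simp only [mem_preimage, mem_singleton_iff, decide_eq_true_eq, mem_iInter, mem_ofPred_eq]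
        exact ⟨fun h i => h i i.2, fun h i hi => h ⟨i, hi⟩⟩
      rw [this]
      refine @MeasurableSet.iInter _ _ (cyl (theta w j k a '' vis w j k)) _ _ fun i' => ?_
      have hv : (((i:ℤ) - p.1 - 1, p.1, p.2, (i':ℕ)) : Idx) ∈ vis w j k := by
        refine ⟨by simp only; omega, Or.inl ⟨by simp only; omega, i'.2⟩⟩
      exact (hco _ hv) (measurableSet_singleton false)
    exact hm1.prodMk hm2
  exact key _ ⟨A, hA, rfl⟩

lemma future_theta (w : ℕ → ℕ) (j k a : ℕ) (hk : 0 < k) (ha : ∀ l, k ≤ l + 1 → a < w l)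
    {S : Set (ℕ → St)} (hS : MeasurableSet[future St (j + k)] S) (ω : Idx → Bool) :
    path w (fun i => ω (theta w j k a i)) ∈ S ↔ path w ω ∈ S := by
  -- `S` depends only on the coordinates `≥ j + k`
  have hdep : ∀ x y : ℕ → St, (∀ i, j + k ≤ i → x i = y i) → (x ∈ S ↔ y ∈ S) := by
    have hle : future St (j + k) ≤ MeasurableSpace.comap
        (fun (x : ℕ → St) (i : {i : ℕ // j + k ≤ i}) => x i) MeasurableSpace.pi := by
      unfold future
      refine iSup₂_le fun i hi => ?_
      rintro _ ⟨B, hB, rfl⟩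
      exact ⟨(fun z : {i : ℕ // j + k ≤ i} → St => z ⟨i, hi⟩) ⁻¹' B,
        measurable_pi_apply _ hB, rfl⟩
    obtain ⟨B, -, rfl⟩ := hle _ hS
    intro x y hxy
    have : (fun i : {i : ℕ // j + k ≤ i} => x i) = (fun i : {i : ℕ // j + k ≤ i} => y i) := by
      ext1 i; exact hxy i i.2
    simp only [mem_preimage, this]
  apply hdep
  intro t ht
  unfold path proc
  refine Prod.ext ?_ ?_
  · funext p
    have : theta w j k a ((t:ℤ), p.1, p.2, 0) = ((t:ℤ), p.1, p.2, 0) := by
      unfold theta
      simp only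
      rw [if_neg (by omega)]
    simp only [this]
  · funext p
    simp only [decide_eq_decide]
    by_cases hle : (t:ℤ) - p.1 - 1 ≤ j
    · have hcross : ¬ ((t:ℤ) - p.1 - 1 + p.1 + 1 < j + k) := by omega
      have hal : a < w p.1 := ha p.1 (by omega)
      have h0l : 0 < w p.1 := by omega
      have heq : ∀ i, theta w j k a ((t:ℤ) - p.1 - 1, p.1, p.2, i) =
          ((t:ℤ) - p.1 - 1, p.1, p.2, Equiv.swap 0 a i) := by
        intro i
        unfold theta
        simp only
        rw [if_pos hle, if_neg hcross]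
      simp only [heq]
      have hsw : ∀ i, i < w p.1 → Equiv.swap 0 a i < w p.1 := by
        intro i hi
        rcases eq_or_ne i 0 with rfl | h0
        · rw [Equiv.swap_apply_left]; exact hal
        · rcases eq_or_ne i a with rfl | h1
          · rw [Equiv.swap_apply_right]; exact h0l
          · rw [Equiv.swap_apply_of_ne_of_ne h0 h1]; exact hi
      constructor
      · intro h i hi
        have := h _ (hsw i hi)
        rwa [Equiv.swap_apply_self] at this
      · intro h i hi
        exact h _ (hsw i hi)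
    · have heq : ∀ i, theta w j k a ((t:ℤ) - p.1 - 1, p.1, p.2, i) =
          ((t:ℤ) - p.1 - 1, p.1, p.2, i) := by
        intro i
        unfold theta
        simp only
        rw [if_neg hle]
      simp only [heq]

lemma measurable_of_past {X : Type} [MeasurableSpace X] {j : ℕ} {A : Set (ℕ → X)}
    (hA : MeasurableSet[past X j] A) : MeasurableSet A := by
  have : past X j ≤ MeasurableSpace.pi := iSup₂_le fun i _ => by
    rw [← measurable_iff_comap_le]; exact measurable_pi_apply i
  exact this _ hA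

lemma measurable_of_future {X : Type} [MeasurableSpace X] {j : ℕ} {A : Set (ℕ → X)}
    (hA : MeasurableSet[future X j] A) : MeasurableSet A := by
  have : future X j ≤ MeasurableSpace.pi := iSup₂_le fun i _ => by
    rw [← measurable_iff_comap_le]; exact measurable_pi_apply i
  exact this _ hA

lemma cyl_le (V : Set Idx) : cyl V ≤ MeasurableSpace.pi := iSup₂_le fun i _ => by
    rw [← measurable_iff_comap_le]; exact measurable_pi_apply i

lemma indep_cyl {V W : Set Idx} (h : Disjoint V W) : Indep (cyl V) (cyl W) PP := by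
  have h1 : iIndepFun (fun (i : Idx) (ω : Idx → Bool) => ω i) PP := by
    unfold PP
    exact iIndepFun_infinitePi (X := fun _ x => x) (fun _ => measurable_id)
  exact indep_iSup_of_disjoint (fun i => by
    rw [← measurable_iff_comap_le]; exact measurable_pi_apply i) h1.iIndep h

lemma alpha_Law_le (w : ℕ → ℕ) (hw : ∀ l, 0 < w l) (k K : ℕ) (hk : 0 < k) (hK : 0 < K)
    (hKw : ∀ l, k ≤ l + 1 → K ≤ w l) :
    alpha (Law w) k ≤ ENNReal.ofReal (1 / (2 * √K)) := by
  unfold alpha
  refine iSup_le fun j => iSup_le fun A => iSup_le fun B => iSup_le fun hA => iSup_le fun hB => ?_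
  apply ENNReal.ofReal_le_ofReal
  have hAm := measurable_of_past hA
  have hBm := measurable_of_future hB
  set T : Fin K → (Idx → Bool) → (Idx → Bool) := fun a ω i => ω (theta w j k a i) with hT
  have hTm : ∀ a, Measurable (T a) := fun a => measurable_pi_lambda _ fun i => measurable_pi_apply _
  have hTP : ∀ a, PP.map (T a) = PP := fun a => PP_map_inj _ (theta_injective w j k a)
  have hpm := measurable_path w
  have hL : ∀ {C : Set (ℕ → St)}, MeasurableSet C → (Law w).real C = PP.real (path w ⁻¹' C) := by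
    intro C hC
    unfold Law
    rw [map_measureReal_apply hpm hC]
  have hTr : ∀ a, ∀ {C : Set (Idx → Bool)}, MeasurableSet C → PP.real (T a ⁻¹' C) = PP.real C := by
    intro a C hC
    rw [← map_measureReal_apply (hTm a) hC, hTP]
  rw [hL (hAm.inter hBm), hL hAm, hL hBm]
  refine abs_cov_le PP K hK (fun a => T a ⁻¹' (path w ⁻¹' A)) (path w ⁻¹' B)
    (fun a => (hTm a) (hpm hAm)) (hpm hBm) ?_ _ _ (fun a => hTr a (hpm hAm)) ?_
  · intro a b hab
    have hab' : (a : ℕ) ≠ b := fun h => hab (Fin.ext h)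
    have hi := indep_cyl (disjoint_theta w j k a b hab')
    have h1 := measurable_past_theta w hw j k a hk hA
    have h2 := measurable_past_theta w hw j k b hk hA
    have := (Indep_iff _ _ _).1 hi _ _ h1 h2
    have h3 : T a ⁻¹' (path w ⁻¹' A) = (fun ω : Idx → Bool => path w (fun i => ω (theta w j k a i))) ⁻¹' A := rfl
    have h4 : T b ⁻¹' (path w ⁻¹' A) = (fun ω : Idx → Bool => path w (fun i => ω (theta w j k b i))) ⁻¹' A := rfl
    simp only [h3, h4, measureReal_def, this, ENNReal.toReal_mul]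
  · intro a
    have : T a ⁻¹' (path w ⁻¹' A) ∩ path w ⁻¹' B = T a ⁻¹' (path w ⁻¹' (A ∩ B)) := by
      ext ω
      simp only [mem_inter_iff, mem_preimage]
      have := future_theta w j k a hk (fun l hl => lt_of_lt_of_le a.2 (hKw l hl)) hB ω
      exact and_congr_right fun _ => this.symm
    rw [this]
    exact hTr a (hpm (hAm.inter hBm))

/-- `x` may precede `y` at lag `l + 1` -/
def Link (l : ℕ) (x y : St) : Prop := ∀ n, y.2 (l, n) = true → x.1 (l, n) = false

/-- linked at some lag -/
def Linked (x y : St) : Prop := ∃ l, Link l x y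

/-- the class: indicators of finite sets of pairwise linked states -/
noncomputable def cls : Set (St → ℝ) :=
  {f | ∃ C : Set St, C.Finite ∧ (∀ x ∈ C, ∀ y ∈ C, x ≠ y → Linked x y ∨ Linked y x) ∧
    f = C.indicator (fun _ => 1)}

lemma PP_pi (s : Finset Idx) (c : Idx → Bool) :
    PP {ω | ∀ i ∈ s, ω i = c i} = (2⁻¹ : ℝ≥0∞) ^ s.card := by
  have h := Measure.infinitePi_pi (fun _ : Idx => coin) (s := s) (t := fun i => {c i})
    (fun i _ => measurableSet_singleton _)
  have h2 : {ω : Idx → Bool | ∀ i ∈ s, ω i = c i} = Set.pi (↑s) (fun i => {c i}) := by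
    ext ω; simp [Set.pi]
  rw [h2]
  unfold PP
  rw [h]
  simp [coin_singleton]

/-- law of the time-zero state -/
lemma marginal_Law (w : ℕ → ℕ) : marginal (Law w) = PP.map (proc w 0) := by
  unfold marginal Law
  rw [Measure.map_map (measurable_pi_apply 0) (measurable_path w)]
  rfl

lemma measurable_fstcoord (p : ℕ × ℕ) : Measurable (fun x : St => x.1 p) :=
  (measurable_pi_apply p).comp measurable_fst

lemma measurable_sndcoord (p : ℕ × ℕ) : Measurable (fun x : St => x.2 p) :=
  (measurable_pi_apply p).comp measurable_snd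

lemma marginal_coords (w : ℕ → ℕ) (c : ℕ → Bool) :
    marginal (Law w) {x | ∀ n, x.1 (0, n) = c n} = 0 := by
  rw [marginal_Law, Measure.map_apply (measurable_proc w 0)]
  · have hle : ∀ N : ℕ, PP (proc w 0 ⁻¹' {x | ∀ n, x.1 (0, n) = c n}) ≤ (2⁻¹ : ℝ≥0∞) ^ N := by
      intro N
      have h := PP_pi ((Finset.range N).image (fun n => (((0:ℤ), 0, n, 0) : Idx)))
        (fun i => c i.2.2.1)
      rw [Finset.card_image_of_injective _ (by
        intro a b hab; simpa using hab), Finset.card_range] at h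
      rw [← h]
      apply measure_mono
      intro ω hω
      simp only [mem_preimage, mem_ofPred_eq, proc] at hω
      simp only [mem_ofPred_eq, Finset.mem_image, Finset.mem_range]
      rintro i ⟨n, _, rfl⟩
      exact hω n
    have ht : Tendsto (fun N : ℕ => (2⁻¹ : ℝ≥0∞) ^ N) atTop (𝓝 0) :=
      ENNReal.tendsto_pow_atTop_nhds_zero_of_lt_one (by
        rw [ENNReal.inv_lt_one]; norm_num)
    exact le_antisymm (ge_of_tendsto' ht hle) bot_le
  · have : {x : St | ∀ n, x.1 (0, n) = c n} = ⋂ n, {x | x.1 (0, n) = c n} := by ext; simp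
    rw [this]
    exact MeasurableSet.iInter fun n =>
      measurableSet_eq_fun (measurable_fstcoord _) measurable_const

lemma marginal_singleton (w : ℕ → ℕ) (x : St) : marginal (Law w) {x} = 0 :=
  measure_mono_null (by rintro _ rfl n; rfl) (marginal_coords w (fun n => x.1 (0, n)))

lemma marginal_finite (w : ℕ → ℕ) (C : Set St) (hC : C.Finite) : marginal (Law w) C = 0 := by
  rw [← biUnion_of_singleton C]
  exact (measure_biUnion_null_iff hC.countable).2 fun x _ => marginal_singleton w x

lemma ae_ne (w : ℕ → ℕ) :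
    ∀ᵐ p ∂((marginal (Law w)).prod (marginal (Law w))), p.1 ≠ p.2 := by
  have hms : MeasurableSet {p : St × St | ∀ n, p.1.1 (0, n) = p.2.1 (0, n)} := by
    have : {p : St × St | ∀ n, p.1.1 (0, n) = p.2.1 (0, n)}
        = ⋂ n, {p : St × St | p.1.1 (0, n) = p.2.1 (0, n)} := by ext; simp
    rw [this]
    exact MeasurableSet.iInter fun n =>
      measurableSet_eq_fun ((measurable_fstcoord _).comp measurable_fst)
        ((measurable_fstcoord _).comp measurable_snd)
  have h0 : ((marginal (Law w)).prod (marginal (Law w)))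
      {p : St × St | ∀ n, p.1.1 (0, n) = p.2.1 (0, n)} = 0 := by
    rw [Measure.measure_prod_null hms]
    refine Eventually.of_forall fun x => ?_
    have := marginal_coords w (fun n => x.1 (0, n))
    simp only [Pi.zero_apply]
    convert! this using 2
    ext y
    simp only [mem_preimage, mem_ofPred_eq]
    exact ⟨fun h n => (h n).symm, fun h n => (h n).symm⟩
  rw [ae_iff]
  refine measure_mono_null ?_ h0
  intro p hp
  simp only [ne_eq, not_not, mem_ofPred_eq] at hp
  simp [hp]

lemma ae_not_link (w : ℕ → ℕ) (l : ℕ) :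
    ∀ᵐ p ∂((marginal (Law w)).prod (marginal (Law w))), ¬ Link l p.1 p.2 := by
  classical
  rw [marginal_Law, Measure.map_prod_map _ _ (measurable_proc w 0) (measurable_proc w 0)]
  rw [ae_map_iff (Measurable.aemeasurable (by
    exact (measurable_proc w 0).prodMap (measurable_proc w 0)))]
  swap
  · have : {p : St × St | ¬ Link l p.1 p.2}
        = ⋃ n, ({p : St × St | p.2.2 (l, n) = true} ∩ {p : St × St | p.1.1 (l, n) = true}) := by
      ext p
      simp [Link]
    rw [this]
    exact MeasurableSet.iUnion fun n =>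
      (measurableSet_eq_fun ((measurable_sndcoord _).comp measurable_snd) measurable_const).inter
        (measurableSet_eq_fun ((measurable_fstcoord _).comp measurable_fst) measurable_const)
  -- events
  set A : ℕ → Set (Idx → Bool) := fun n => {ω | ω ((0:ℤ), l, n, 0) = true} with hA
  set B : ℕ → Set (Idx → Bool) := fun n => {ω | ∀ i < w l, ω ((0:ℤ) - l - 1, l, n, i) = false}
    with hB
  set E : ℕ → Set ((Idx → Bool) × (Idx → Bool)) := fun n => A n ×ˢ B n with hE
  have hAm : ∀ n, MeasurableSet (A n) := fun n =>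
    measurableSet_eq_fun (measurable_pi_apply _) measurable_const
  have hBm : ∀ n, MeasurableSet (B n) := fun n => by
    have : B n = ⋂ i : Fin (w l), {ω | ω ((0:ℤ) - l - 1, l, n, (i:ℕ)) = false} := by
      ext ω
      simp only [hB, mem_ofPred_eq, mem_iInter]
      exact ⟨fun h i => h i i.2, fun h i hi => h ⟨i, hi⟩⟩
    rw [this]
    exact MeasurableSet.iInter fun i => measurableSet_eq_fun (measurable_pi_apply _) measurable_const
  have hAs : ∀ s : Finset ℕ, PP (⋂ n ∈ s, A n) = (2⁻¹ : ℝ≥0∞) ^ s.card := by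
    intro s
    have h := PP_pi (s.image (fun n => (((0:ℤ), l, n, 0) : Idx))) (fun _ => true)
    rw [Finset.card_image_of_injective _ (by intro a b hab; simpa using hab)] at h
    rw [← h]
    congr 1
    ext ω
    simp [hA]
  have hBs : ∀ s : Finset ℕ, PP (⋂ n ∈ s, B n) = ((2⁻¹ : ℝ≥0∞) ^ w l) ^ s.card := by
    intro s
    have h := PP_pi ((s ×ˢ Finset.range (w l)).image
      (fun p => (((0:ℤ) - l - 1, l, p.1, p.2) : Idx))) (fun _ => false)
    rw [Finset.card_image_of_injective _ (by
      rintro ⟨a, b⟩ ⟨c, d⟩ hab; simpa using hab), Finset.card_product, Finset.card_range] at h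
    rw [← pow_mul, mul_comm, ← h]
    congr 1
    ext ω
    simp only [hB, mem_iInter, mem_ofPred_eq, Finset.mem_image, Finset.mem_product,
      Finset.mem_range, Prod.exists]
    constructor
    · rintro h i ⟨n, i', ⟨hn, hi'⟩, rfl⟩
      exact h n hn i' hi'
    · intro h n hn i hi
      exact h _ ⟨n, i, ⟨hn, hi⟩, rfl⟩
  have hEs : ∀ s : Finset ℕ, (PP.prod PP) (⋂ n ∈ s, E n)
      = (2⁻¹ * (2⁻¹ : ℝ≥0∞) ^ w l) ^ s.card := by
    intro s
    have : (⋂ n ∈ s, E n) = (⋂ n ∈ s, A n) ×ˢ (⋂ n ∈ s, B n) := by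
      ext p
      simp only [hE, mem_iInter, mem_prod]
      exact ⟨fun h => ⟨fun n hn => (h n hn).1, fun n hn => (h n hn).2⟩,
        fun h n hn => ⟨h.1 n hn, h.2 n hn⟩⟩
    rw [this, Measure.prod_prod, hAs, hBs, mul_pow]
  have hE1 : ∀ n, (PP.prod PP) (E n) = 2⁻¹ * (2⁻¹ : ℝ≥0∞) ^ w l := by
    intro n
    have := hEs {n}
    simpa using this
  have hind : iIndepSet E (PP.prod PP) := by
    rw [iIndepSet_iff_meas_biInter (fun n => (hAm n).prod (hBm n))]
    intro s
    rw [hEs, Finset.prod_congr rfl (fun n _ => hE1 n), Finset.prod_const]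
  have hlim := measure_limsup_eq_one (fun n => (hAm n).prod (hBm n)) hind (by
    rw [tsum_congr hE1]
    exact ENNReal.tsum_const_eq_top_of_ne_zero (by simp))
  have hmeas : MeasurableSet (limsup E atTop) :=
    MeasurableSet.measurableSet_limsup fun n => (hAm n).prod (hBm n)
  have hae : ∀ᵐ p ∂(PP.prod PP), p ∈ limsup E atTop := by
    rw [ae_iff]
    exact (prob_compl_eq_zero_iff hmeas).2 hlim
  filter_upwards [hae] with p hp
  rw [mem_limsup_iff_frequently_mem] at hp
  obtain ⟨n, hn⟩ := hp.exists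
  intro hlink
  have h1 : (proc w 0 p.2).2 (l, n) = true := by
    simp only [proc, decide_eq_true_eq]
    exact hn.2
  have h2 := hlink n h1
  have h3 : (proc w 0 p.1).1 (l, n) = true := hn.1
  simp only [Prod.map] at h2
  rw [h3] at h2
  exact absurd h2 (by simp)

/-- almost every i.i.d. sequence has pairwise distinct and pairwise unlinked entries -/
lemma ae_iid (w : ℕ → ℕ) :
    ∀ᵐ x ∂(Measure.infinitePi (fun _ : ℕ => marginal (Law w))),
      ∀ i j : ℕ, i ≠ j → x i ≠ x j ∧ ¬ Linked (x i) (x j) := by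
  rw [ae_all_iff]
  intro i
  rw [ae_all_iff]
  intro j
  by_cases hij : i = j
  · exact Eventually.of_forall fun x h => absurd hij h
  have h1 : ∀ᵐ p ∂((marginal (Law w)).prod (marginal (Law w))), p.1 ≠ p.2 ∧ ¬ Linked p.1 p.2 := by
    have h2 : ∀ᵐ p ∂((marginal (Law w)).prod (marginal (Law w))), ∀ l, ¬ Link l p.1 p.2 := by
      rw [ae_all_iff]; exact ae_not_link w
    filter_upwards [ae_ne w, h2] with p hp1 hp2
    exact ⟨hp1, fun ⟨l, hl⟩ => hp2 l hl⟩
  rw [← Measure.infinitePi_map_eval_prod (P := fun _ : ℕ => marginal (Law w)) hij] at h1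
  have h3 := ae_of_ae_map (by
    exact Measurable.aemeasurable (by fun_prop)) h1
  filter_upwards [h3] with x hx _
  exact hx

lemma ucem_iid (w : ℕ → ℕ) :
    UCEM cls (marginal (Law w)) (Measure.infinitePi (fun _ : ℕ => marginal (Law w))) := by
  classical
  intro ε hε
  obtain ⟨N, hN⟩ := exists_nat_gt (1 / ε)
  refine tendsto_const_nhds.congr' ?_
  filter_upwards [eventually_ge_atTop (max N 1)] with m hm
  symm
  unfold q
  have hae := ae_iid w
  rw [ae_iff] at hae
  refine measure_mono_null ?_ hae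
  rintro x ⟨f, ⟨C, hCfin, hC, rfl⟩, hlt⟩ hgood
  have hint : ∫ y, C.indicator (fun _ => (1:ℝ)) y ∂(marginal (Law w)) = 0 := by
    rw [integral_indicator_const _ hCfin.measurableSet]
    simp [measureReal_def, marginal_finite w C hCfin]
  have hm1 : 1 ≤ m := le_trans (le_max_right _ _) hm
  have hmpos : (0:ℝ) < m := by exact_mod_cast hm1
  have hsum : ∑ i ∈ Finset.range m, C.indicator (fun _ => (1:ℝ)) (x i) ≤ 1 := by
    have : ∑ i ∈ Finset.range m, C.indicator (fun _ => (1:ℝ)) (x i)
        = (((Finset.range m).filter (fun i => x i ∈ C)).card : ℝ) := by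
      rw [Finset.card_filter]
      push_cast
      exact Finset.sum_congr rfl fun i _ => by simp [indicator]
    rw [this]
    have hcard : ((Finset.range m).filter (fun i => x i ∈ C)).card ≤ 1 := by
      rw [Finset.card_le_one]
      intro i hi j hj
      by_contra hij
      simp only [Finset.mem_filter, Finset.mem_range] at hi hj
      have h1 := hgood i j hij
      have h2 := hgood j i (fun h => hij h.symm)
      rcases hC _ hi.2 _ hj.2 h1.1 with h | h
      · exact h1.2 h
      · exact h2.2 h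
    exact_mod_cast hcard
  have hsum0 : 0 ≤ ∑ i ∈ Finset.range m, C.indicator (fun _ => (1:ℝ)) (x i) :=
    Finset.sum_nonneg fun i _ => indicator_nonneg (fun _ _ => zero_le_one) _
  rw [hint, sub_zero] at hlt
  unfold empMean at hlt
  rw [abs_of_nonneg (by positivity)] at hlt
  have h1 : (1 / (m:ℝ)) * ∑ i ∈ Finset.range m, C.indicator (fun _ => (1:ℝ)) (x i) ≤ 1 / m := by
    calc _ ≤ (1 / (m:ℝ)) * 1 := by gcongr
      _ = 1 / m := mul_one _
  have h2 : ε < 1 / m := lt_of_lt_of_le hlt h1
  have h3 : (1:ℝ) / ε < m := lt_of_lt_of_le hN (by exact_mod_cast le_trans (le_max_left _ _) hm)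
  rw [lt_div_iff₀ hmpos] at h2
  rw [div_lt_iff₀ hε] at h3
  linarith [mul_comm ε (m:ℝ)]

lemma linked_path (w : ℕ → ℕ) (hw : ∀ l, 0 < w l) (ω : Idx → Bool) (s t : ℕ) (hst : s < t) :
    Linked (path w ω s) (path w ω t) := by
  refine ⟨t - s - 1, fun n h => ?_⟩
  simp only [path, proc, decide_eq_true_eq] at h ⊢
  have := h 0 (hw _)
  have e : (t:ℤ) - ((t - s - 1 : ℕ) : ℤ) - 1 = s := by omega
  rw [e] at this
  exact this

lemma not_ucem_Law (w : ℕ → ℕ) (hw : ∀ l, 0 < w l) (m : ℕ) (hm : 0 < m) :
    q cls (marginal (Law w)) m (1/2) (Law w) = 1 := by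
  classical
  refine le_antisymm prob_le_one ?_
  unfold q
  have h1 : ∀ S : Set (ℕ → St), PP (path w ⁻¹' S) ≤ Law w S := fun S =>
    Measure.le_map_apply (measurable_path w).aemeasurable S
  refine le_trans ?_ (h1 _)
  have h2 : path w ⁻¹' {x | ∃ f ∈ cls, 1/2 < |empMean f m x - ∫ y, f y ∂(marginal (Law w))|}
      = univ := by
    rw [eq_univ_iff_forall]
    intro ω
    set C : Set St := path w ω '' (Finset.range m : Set ℕ) with hC
    have hCfin : C.Finite := (Finset.finite_toSet _).image _
    refine ⟨C.indicator (fun _ => 1), ⟨C, hCfin, ?_, rfl⟩, ?_⟩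
    · rintro _ ⟨s, _, rfl⟩ _ ⟨t, _, rfl⟩ hne
      rcases lt_trichotomy s t with h | h | h
      · exact Or.inl (linked_path w hw ω s t h)
      · exact absurd (by rw [h]) hne
      · exact Or.inr (linked_path w hw ω t s h)
    · have hint : ∫ y, C.indicator (fun _ => (1:ℝ)) y ∂(marginal (Law w)) = 0 := by
        rw [integral_indicator_const _ hCfin.measurableSet]
        simp [measureReal_def, marginal_finite w C hCfin]
      have hsum : ∑ i ∈ Finset.range m, C.indicator (fun _ => (1:ℝ)) (path w ω i) = m := by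
        rw [Finset.sum_congr rfl (g := fun _ => (1:ℝ))]
        · simp
        · intro i hi
          exact indicator_of_mem (mem_image_of_mem _ (by simpa using hi)) _
      rw [hint, sub_zero]
      unfold empMean
      rw [hsum]
      have : (m:ℝ) ≠ 0 := by exact_mod_cast hm.ne'
      rw [one_div_mul_cancel this]
      norm_num
  rw [h2, measure_univ]

instance : StandardBorelSpace St := inferInstance

lemma cls_infinite : cls.Infinite := by
  have hinj : Function.Injective (fun x : St => (({x} : Set St).indicator (fun _ => (1:ℝ)))) := by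
    intro x y h
    have := congrFun h x
    simp only [indicator, mem_singleton_iff] at this
    by_contra hne
    simp [hne] at this
  have : Infinite St := inferInstance
  exact infinite_of_injective_forall_mem hinj fun x =>
    ⟨{x}, finite_singleton x, by rintro a rfl b rfl h; exact absurd rfl h, rfl⟩

/-- the number of coins needed at lag `k` -/
noncomputable def Kf (r : ℕ → ℝ) (k : ℕ) : ℕ := ⌈1 / (4 * (r k) ^ 2)⌉₊ + 1

/-- number of coins -/
noncomputable def wf (r : ℕ → ℝ) (l : ℕ) : ℕ := ∑ k ∈ Finset.range (l + 2), Kf r k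

lemma wf_pos (r : ℕ → ℝ) (l : ℕ) : 0 < wf r l :=
  Finset.sum_pos (fun k _ => Nat.succ_pos _) ⟨0, by simp⟩

lemma Kf_le_wf (r : ℕ → ℝ) (k l : ℕ) (h : k ≤ l + 1) : Kf r k ≤ wf r l :=
  Finset.single_le_sum (f := Kf r) (fun _ _ => Nat.zero_le _) (by simp; omega)

lemma alpha_wf (r : ℕ → ℝ) (hr : ∀ k, 0 < r k) (k : ℕ) (hk : 0 < k) :
    alpha (Law (wf r)) k ≤ ENNReal.ofReal (r k) := by
  refine le_trans (alpha_Law_le (wf r) (wf_pos r) k (Kf r k) hk (Nat.succ_pos _)
    (fun l hl => Kf_le_wf r k l hl)) (ENNReal.ofReal_le_ofReal ?_)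
  have h1 : 1 / (4 * (r k) ^ 2) ≤ (Kf r k : ℝ) := by
    unfold Kf
    push_cast
    linarith [Nat.le_ceil (1 / (4 * (r k) ^ 2))]
  have hrk := hr k
  have h2 : 1 / (2 * r k) ≤ √(Kf r k : ℝ) := by
    apply Real.le_sqrt_of_sq_le
    calc (1 / (2 * r k)) ^ 2 = 1 / (4 * (r k) ^ 2) := by field_simp; norm_num
      _ ≤ _ := h1
  have h3 : 0 < √(Kf r k : ℝ) := lt_of_lt_of_le (by positivity) h2
  rw [div_le_iff₀ (by positivity)]
  rw [div_le_iff₀ (by positivity)] at h2
  linarith

/-- **Negative answer to Q1, at every mixing rate.** -/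
theorem result (r : ℕ → ℝ) (hr : ∀ k, 0 < r k) :
    ∃ (X : Type) (_ : MeasurableSpace X) (_ : StandardBorelSpace X) (P : Measure (ℕ → X))
      (_ : IsProbabilityMeasure P) (𝓕 : Set (X → ℝ)),
      Stationary P ∧
      Tendsto (alpha P) atTop (𝓝 0) ∧
      (∀ k, 1 ≤ k → alpha P k ≤ ENNReal.ofReal (r k)) ∧
      𝓕.Infinite ∧
      (∀ f ∈ 𝓕, Measurable f ∧ ∀ x, 0 ≤ f x ∧ f x ≤ 1) ∧
      UCEM 𝓕 (marginal P) (Measure.infinitePi (fun _ : ℕ => marginal P)) ∧
      (∀ m, 1 ≤ m → q 𝓕 (marginal P) m (1/2) P = 1) ∧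
      ¬ UCEM 𝓕 (marginal P) P := by
  set r' : ℕ → ℝ := fun k => min (r k) (1 / (k + 1)) with hr'
  have hr'pos : ∀ k, 0 < r' k := fun k => lt_min (hr k) (by positivity)
  refine ⟨St, inferInstance, inferInstance, Law (wf r'), inferInstance, cls,
    stationary_Law _, ?_, ?_, cls_infinite, ?_, ucem_iid _, ?_, ?_⟩
  · have h0 : Tendsto (fun k : ℕ => ENNReal.ofReal (1 / ((k:ℝ) + 1))) atTop (𝓝 0) := by
      rw [← ENNReal.ofReal_zero]
      exact ENNReal.tendsto_ofReal tendsto_one_div_add_atTop_nhds_zero_nat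
    refine tendsto_of_tendsto_of_tendsto_of_le_of_le' tendsto_const_nhds h0
      (Eventually.of_forall fun _ => bot_le) ?_
    filter_upwards [eventually_ge_atTop 1] with k hk
    exact le_trans (alpha_wf r' hr'pos k hk) (ENNReal.ofReal_le_ofReal (min_le_right _ _))
  · intro k hk
    exact le_trans (alpha_wf r' hr'pos k hk) (ENNReal.ofReal_le_ofReal (min_le_left _ _))
  · rintro f ⟨C, hC, -, rfl⟩
    refine ⟨measurable_const.indicator hC.measurableSet, fun x => ?_⟩
    simp only [indicator]
    split_ifs <;> simp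
  · intro m hm
    exact not_ucem_Law _ (wf_pos r') m hm
  · intro h
    have h1 := h (1/2) (by norm_num)
    have h2 : Tendsto (fun m => q cls (marginal (Law (wf r'))) m (1/2) (Law (wf r'))) atTop
        (𝓝 1) := by
      refine tendsto_const_nhds.congr' ?_
      filter_upwards [eventually_ge_atTop 1] with m hm
      exact (not_ucem_Law _ (wf_pos r') m hm).symm
    exact zero_ne_one (tendsto_nhds_unique h1 h2)

end Pool.Agent.Results.MP_c7dc48_pr.AlphaMixingNoTransfer
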